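import Pool.Agent.N805.VP.Base

/-! # Project VP (helper805): thinning of a configuration (helper756) -/

set_option autoImplicit false

open MeasureTheory Set Filter Topology

namespace Pool.Agent.N756.VP

open Pool.Agent.N805.VP

variable {J : Finset ℕ} {x : ℕ → ℝ}

/-- `0` if nothing is counted, `1` otherwise -/
noncomputable def f1 (n : ℕ) : ℝ := if n = 0 then 0 else 1

lemma cov_eq {W : Set ℝ} (hW : MeasurableSet W) : cov J x W = ∫ t, f1 (cnt J x W t) := by
  have hm : MeasurableSet {t : ℝ | ∃ n ∈ J, x n - t ∈ W} := by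
    have : {t : ℝ | ∃ n ∈ J, x n - t ∈ W} = ⋃ n ∈ J, {t : ℝ | x n - t ∈ W} := by
      ext t
      simp
    rw [this]
    exact Finset.measurableSet_biUnion _ fun n _ => meas_pt hW n
  have h1 : (fun t => f1 (cnt J x W t)) =
      {t : ℝ | ∃ n ∈ J, x n - t ∈ W}.indicator fun _ => (1 : ℝ) := by
    funext t
    unfold f1
    by_cases ht : t ∈ {t : ℝ | ∃ n ∈ J, x n - t ∈ W}
    · rw [indicator_of_mem ht, if_neg (Nat.pos_iff_ne_zero.1 (cnt_pos.2 ht))]
    · rw [indicator_of_notMem ht, if_pos]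
      by_contra h
      exact ht (cnt_pos.1 (Nat.pos_of_ne_zero h))
  rw [h1, integral_indicator hm, setIntegral_const, smul_eq_mul, mul_one]
  rfl

lemma cnt_U {h : ℝ} (hh : 0 < h) (A : Finset ℤ) (t : ℝ) :
    cnt J x (U h A) t = ∑ a ∈ A, cnt J x (cell h a) t := by
  classical
  unfold cnt
  rw [← Finset.card_biUnion]
  · congr 1
    ext n
    simp only [Finset.mem_filter, Finset.mem_biUnion, U, mem_iUnion, exists_prop]
    constructor
    · rintro ⟨h1, a, h2, h3⟩
      exact ⟨a, h2, h1, h3⟩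
    · rintro ⟨a, h2, h1, h3⟩
      exact ⟨h1, a, h2, h3⟩
  · intro a _ b _ hab
    rw [Function.onFun, Finset.disjoint_left]
    intro n hn hn'
    rw [Finset.mem_filter] at hn hn'
    exact (Set.disjoint_left.1 (cell_disj hh (mem_univ a) (mem_univ b) hab)) hn.2 hn'.2

lemma f1_U {h : ℝ} (hh : 0 < h) (S : Finset ℤ) (t : ℝ) :
    f1 (cnt J x (U h S) t) = 1 - ∏ a ∈ S, (1 - f1 (cnt J x (cell h a) t)) := by
  rw [cnt_U hh]
  by_cases h0 : ∀ a ∈ S, cnt J x (cell h a) t = 0
  · rw [Finset.sum_eq_zero h0, Finset.prod_eq_one]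
    · unfold f1
      simp
    · intro a ha
      rw [h0 a ha]
      unfold f1
      simp
  · push Not at h0
    obtain ⟨a, ha, h1⟩ := h0
    rw [Finset.prod_eq_zero ha]
    · unfold f1
      rw [if_neg]
      · ring
      · intro h2
        exact h1 (Finset.sum_eq_zero_iff.1 h2 a ha)
    · unfold f1
      rw [if_neg h1]
      ring

theorem THIN : S_THIN := by
  classical
  intro J x h hh A z hz0 hz1
  have hz2 : 0 ≤ 1 - z := by linarith
  have hz3 : 1 - z ≤ 1 := by linarith
  have hf0 : f1 0 = 0 := by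
    unfold f1
    simp
  have hint : ∀ S : Finset ℤ, Integrable fun t => f1 (cnt J x (U h S) t) := fun S =>
    int_cnt (U_meas h S) (U_bdd h hh S) f1 hf0
  have hint2 : Integrable fun t => (1 - (1 - z) ^ cnt J x (U h A) t) :=
    int_cnt (U_meas h A) (U_bdd h hh A) (fun n => 1 - (1 - z) ^ n) (by simp)
  have hsum : ∑ S ∈ A.powerset, z ^ S.card * (1 - z) ^ (A.card - S.card) * cov J x (U h S) =
      ∫ t, ∑ S ∈ A.powerset, z ^ S.card * (1 - z) ^ (A.card - S.card) * f1 (cnt J x (U h S) t) := by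
    rw [integral_finsetSum]
    · refine Finset.sum_congr rfl fun S _ => ?_
      rw [cov_eq (U_meas h S), integral_const_mul]
    · intro S _
      exact (hint S).const_mul _
  rw [hsum]
  refine integral_mono (integrable_finsetSum _ fun S _ => (hint S).const_mul _) hint2 fun t => ?_
  simp only
  have hexp : ∀ g : ℤ → ℝ, ∏ a ∈ A, (z * g a + (1 - z)) =
      ∑ S ∈ A.powerset, z ^ S.card * (1 - z) ^ (A.card - S.card) * ∏ a ∈ S, g a := by
    intro g
    rw [Finset.prod_add]
    refine Finset.sum_congr rfl fun S hS => ?_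
    rw [Finset.prod_mul_distrib, Finset.prod_const, Finset.prod_const,
      Finset.card_sdiff_of_subset (Finset.mem_powerset.1 hS)]
    ring
  have h1 : ∑ S ∈ A.powerset, z ^ S.card * (1 - z) ^ (A.card - S.card) = 1 := by
    have h2 := hexp fun _ => 1
    simp only [Finset.prod_const_one, mul_one] at h2
    rw [← h2]
    exact Finset.prod_eq_one fun a _ => by ring
  have h2 := hexp fun a => 1 - f1 (cnt J x (cell h a) t)
  have h3 : ∑ S ∈ A.powerset, z ^ S.card * (1 - z) ^ (A.card - S.card) * f1 (cnt J x (U h S) t) =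
      1 - ∏ a ∈ A, (z * (1 - f1 (cnt J x (cell h a) t)) + (1 - z)) := by
    have h5 : ∑ S ∈ A.powerset, z ^ S.card * (1 - z) ^ (A.card - S.card) * f1 (cnt J x (U h S) t) +
        ∏ a ∈ A, (z * (1 - f1 (cnt J x (cell h a) t)) + (1 - z)) = 1 := by
      rw [h2, ← Finset.sum_add_distrib]
      refine Eq.trans (Finset.sum_congr rfl fun S _ => ?_) h1
      rw [f1_U hh]
      ring
    linarith
  rw [h3]
  have h4 : (1 - z) ^ cnt J x (U h A) t ≤
      ∏ a ∈ A, (z * (1 - f1 (cnt J x (cell h a) t)) + (1 - z)) := by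
    rw [cnt_U hh, ← Finset.prod_pow_eq_pow_sum]
    refine Finset.prod_le_prod (fun a _ => pow_nonneg hz2 _) fun a _ => ?_
    unfold f1
    split_ifs with h5
    · rw [h5]
      simp
    · have h6 : (1 - z) ^ cnt J x (cell h a) t ≤ (1 - z) ^ 1 :=
        pow_le_pow_of_le_one hz2 hz3 (Nat.pos_of_ne_zero h5)
      linarith
  linarith

end Pool.Agent.N756.VP
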